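import Pool.Agent.Helper43.GD.St

/-! Project GD (MP_b3ce06_al), module ST. -/

set_option autoImplicit false

namespace Pool.Agent.Helper36.GD

open Pool.Agent.Helper43.GD

theorem hST : StST := by
  intro L A _ _ Q u σ hσ
  have hE := Q.h_E hσ
  have hF := Q.h_F hσ
  have hEi := (Q.tor σ hσ).inv.1
  have e1 : Q.om u * Q.h σ * (Q.om u)⁻¹ * Q.h σ
      = Q.E (u : L) * Q.F (-((u⁻¹ : Lˣ) : L)) *
        (Q.E ((1 - (σ : L)) * u) * Q.F (((σ⁻¹ : Lˣ) : L) * ((u⁻¹ : Lˣ) : L)) *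
        (Q.h σ * Q.h σ)) * Q.E (-(((σ⁻¹ : Lˣ) : L) * u)) := by
    have a1 : Q.E ((1 - (σ : L)) * u) = Q.E (u : L) * (Q.h σ * (Q.E (u : L))⁻¹ * (Q.h σ)⁻¹) := by
      rw [← Q.E_neg, hE, ← Q.Eadd]; congr 1; ring
    have a2 : Q.F (((σ⁻¹ : Lˣ) : L) * ((u⁻¹ : Lˣ) : L))
        = Q.h σ * Q.F ((u⁻¹ : Lˣ) : L) * (Q.h σ)⁻¹ := by
      rw [hF]
    have a3 : Q.E (-(((σ⁻¹ : Lˣ) : L) * u)) = (Q.h σ)⁻¹ * (Q.E (u : L))⁻¹ * Q.h σ := by
      have := hEi (-(u : L))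
      rw [inv_inv] at this
      rw [← Q.E_neg, this]; congr 1; ring
    rw [a1, a2, a3]
    unfold Sys.om
    rw [Q.F_neg]
    group
  have e2 : (1 : A) = Q.E (u : L) * Q.F (-((u⁻¹ : Lˣ) : L)) *
      (Q.F ((u⁻¹ : Lˣ) : L) * Q.E ((1 - (σ : L)) * u * ((σ⁻¹ : Lˣ) : L))) *
      Q.E (-(((σ⁻¹ : Lˣ) : L) * u)) := by
    have a1 : Q.E ((1 - (σ : L)) * u * ((σ⁻¹ : Lˣ) : L)) * Q.E (-(((σ⁻¹ : Lˣ) : L) * u))
        = (Q.E (u : L))⁻¹ := by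
      rw [← Q.E_neg, ← Q.Eadd]; congr 1
      have := σ.mul_inv
      linear_combination (-(u : L)) * this
    rw [Q.F_neg]
    calc (1 : A) = Q.E (u : L) * (Q.E (u : L))⁻¹ := by group
      _ = Q.E (u : L) * (Q.E ((1 - (σ : L)) * u * ((σ⁻¹ : Lˣ) : L)) *
          Q.E (-(((σ⁻¹ : Lˣ) : L) * u))) := by rw [a1]
      _ = _ := by group
  have e3 : Q.S u σ ↔ Q.om u * Q.h σ * (Q.om u)⁻¹ * Q.h σ = 1 := by
    constructor
    · intro h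
      rw [h.2]; group
    · intro h
      exact ⟨hσ, eq_inv_of_mul_eq_one_left h⟩
  rw [e3, e1]
  constructor
  · intro h
    rw [e2] at h
    exact mul_left_cancel (mul_right_cancel h)
  · intro h
    rw [h]
    exact e2.symm

end Pool.Agent.Helper36.GD
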